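import Pool.Agent.Run7.h689.GR6
set_option autoImplicit false

/-!
# Avoiding dominated pivots does not help

Linear programs with `2 m` variables on which every simplex path without dominated pivots has
exponentially many pivots. A pivot is dominated if another pivot from the same vertex is better by
more than a factor `2 ^ a` both in the increase of the objective and in the reduced cost and moreover
has an entering variable with a smaller name.
-/

namespace Pool.Agent.Results.MP_4d246d_lc.DominatedPivots

open Pool.Agent.Run7.h689.HP Pool.Agent.Run7.h689.GR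

section
variable {I J : Type} [Fintype I] [Fintype J]

/-- the pivot from `x` to `y` is one that a greedy rule may choose: up to the factor `α` it has the
largest increase of all pivots from `x`; or up to the factor `α` it has the largest reduced cost; or its
entering variable has the smallest name -/
def Greedy (P : LP I J) (ν : I ⊕ J → ℕ) (α : ℝ) (x y : J → ℝ) : Prop :=
  (∀ y', P.Pivot x y' → α * (P.value y' - P.value x) ≤ P.value y - P.value x) ∨
  (∀ y' κ κ', P.Pivot x y' → Leaves P x y κ → Leaves P x y' κ' →
    α * ((P.value y' - P.value x) / slack P y' κ') ≤ (P.value y - P.value x) / slack P y κ) ∨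
  (∀ y' κ κ', P.Pivot x y' → Leaves P x y κ → Leaves P x y' κ' → ν κ ≤ ν κ')

theorem not_dominated {P : LP I J} {ν : I ⊕ J → ℕ} {α : ℝ} {x y : J → ℝ} (h : P.Pivot x y)
    (hg : Greedy P ν α x y) : ¬ Dominated P ν α x y := by
  rintro ⟨y', h1, h2, h3⟩
  obtain ⟨κ, hκ⟩ := pivot_leaves h
  obtain ⟨κ', hκ'⟩ := pivot_leaves h1
  obtain ⟨h4, h5⟩ := h3 κ κ' hκ hκ'
  rcases hg with g | g | g
  · exact absurd (g y' h1) (not_le.2 h2)
  · exact absurd (g y' κ κ' h1 hκ hκ') (not_le.2 h4)
  · exact absurd (g y' κ κ' h1 hκ hκ') (not_le.2 h5)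

end

/-- **Simplex paths without dominated pivots can be exponentially long.**

Let `α = 2 ^ (-a)`. There is a linear program with `2 m` variables and `5 m` rows, with integer
entries of size at most `2 ^ ((a + 11) m ^ 2 + 2)`, nondegenerate, with a bounded feasible region and a
unique optimum `t`, names for its constraints (the slack variables and the variables) and a vertex `s`
such that every simplex path from `s` to the optimum on which no pivot is dominated has at least
`4 (2 ^ m - 1)` pivots. At every vertex except `t` there is a pivot which is not dominated, and every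
pivot leaves some constraint; a pivot is not dominated if up to the factor `α` its increase is the
largest one, or if up to the factor `α` its reduced cost is the largest one, or if its entering variable
has the smallest name. -/
theorem result (a m : ℕ) :
    ∃ (I J : Type) (_ : Fintype I) (_ : Fintype J) (P : LP I J) (ν : I ⊕ J → ℕ) (s t : J → ℝ),
      Fintype.card I = 5 * m ∧ Fintype.card J = 2 * m ∧
      (∀ i j, |P.A i j| ≤ 2 ^ ((a + 11) * m ^ 2 + 2)) ∧
      (∀ i, |P.b i| ≤ 2 ^ ((a + 11) * m ^ 2 + 2)) ∧
      (∀ j, P.c j = 0 ∨ P.c j = 1) ∧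
      P.Nondegenerate ∧
      (∀ x ∈ P.feasible, ∀ j, x j ≤ 2 ^ ((a + 11) * m ^ 2 + 4)) ∧
      Function.Injective ν ∧
      s ∈ P.feasible.extremePoints ℝ ∧ t ∈ P.feasible.extremePoints ℝ ∧
      (∀ x ∈ P.feasible, x ≠ t → P.value x < P.value t) ∧
      (∀ x y, P.Pivot x y → ∃ κ, Leaves P x y κ) ∧
      (∀ x y, P.Pivot x y → Greedy P ν ((1 / 2) ^ a) x y → ¬ Dominated P ν ((1 / 2) ^ a) x y) ∧
      (∀ x ∈ P.feasible.extremePoints ℝ, x ≠ t →
        ∃ y, P.Pivot x y ∧ ¬ Dominated P ν ((1 / 2) ^ a) x y) ∧
      ∀ T x, P.Path s T x → (∀ k < T, ¬ Dominated P ν ((1 / 2) ^ a) (x k) (x (k + 1))) →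
        4 * (2 ^ m - 1) ≤ T := by
  obtain ⟨I, J, _, _, P, q, ν, N, s, t, hI, hJ, hL, -, hc, hA, hb, hF⟩ := stage a m
  refine ⟨I, J, inferInstance, inferInstance, P, ν, s, t, hI, hJ, hA, hb, ?_, hL.nondeg, ?_, hL.inj, hL.hs,
    hL.ht, ?_, fun x y h => pivot_leaves h, fun x y h hg => not_dominated h hg, ?_, ?_⟩
  · intro j
    have := hc j
    omega
  · intro x hx j
    refine (hL.sl x hx (.inr j)).trans (le_of_eq ?_)
    rw [pow_add]; norm_num; ring
  · intro x hx hne
    have := hL.top x hx
    exact lt_of_le_of_ne this.1 fun h => hne (this.2 h)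
  · intro x hx hne
    -- a pivot with the largest increase
    obtain ⟨y, hE, hy⟩ := hL.gt x hx hne
    have hG : (0 : ℝ) < (1 / 2 : ℝ) ^ (4 + (a + 10) * m) := by positivity
    have hfin : {y | P.Pivot x y}.Finite := hF.subset fun z hz => edge_ext (edge_symm hz.1)
    obtain ⟨z, hz, hmax⟩ := hfin.exists_maximalFor P.value _ ⟨y, hE, by unfold uu at hy; linarith⟩
    refine ⟨z, hz, not_dominated hz (Or.inl fun y' hy' => ?_)⟩
    have hz2 : P.value x < P.value z := hz.2
    have h1 : P.value y' ≤ P.value z := by
      by_contra hlt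
      exact hlt (hmax hy' (not_le.1 hlt).le)
    have hα0 : (0 : ℝ) < (1 / 2 : ℝ) ^ a := by positivity
    have hα1 : (1 / 2 : ℝ) ^ a ≤ 1 := pow_le_one₀ (by norm_num) (by norm_num)
    have hy'2 : 0 < P.value y' - P.value x := by linarith [hy'.2]
    have h2 := mul_le_mul_of_nonneg_right hα1 hy'2.le
    linarith
  · intro T x hx hd
    have hend : x T = t := by
      have hmem : x T ∈ P.feasible := by
        rcases Nat.eq_zero_or_pos T with h0 | h0
        · rw [h0, hx.1]; exact hL.hs.1
        · have := hx.2.1 (T - 1) (by omega)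
          have e : T - 1 + 1 = T := by omega
          rw [e] at this
          exact (edge_mem this.1).2
      have h1 := (hL.top _ hmem)
      exact h1.2 (le_antisymm h1.1 (hx.2.2 t hL.ht.1))
    have h := upath_of (P := P) (ν := ν) (α := (1 / 2) ^ a) T x fun k hk => ⟨hx.2.1 k hk, hd k hk⟩
    rw [hx.1, hend] at h
    exact hL.hard T h

end Pool.Agent.Results.MP_4d246d_lc.DominatedPivots
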