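import Pool.Agent.Run7.h302.Subexp

/-!
# Every version of the simplex method is subexponential on perturbed linear programs

The question asks for a version of the simplex method (a rule which selects an improving edge at every vertex) with
few steps on EVERY linear program. For all the rules which have been analysed there are linear programs, such as the
deformed cubes of Klee and Minty, on which they need exponentially many steps. This file shows that a random
perturbation of the coefficients destroys such linear programs, for all the versions of the simplex method at once.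

Let `n` be the number of the variables, `m` the number of the constraints of `max cᵀx`, `A x ≤ b`. A run with `k` steps
is a sequence `p 0, ..., p k` of vertices of `P = {x : A x ≤ b}` such that `p t` and `p (t + 1)` are joined by an edge
along which `cᵀx` increases. Every version of the simplex method follows such a run, whatever its rule is and
whatever vertex it is started at. Let `L(A, b, c)` be the largest number of steps of a run, so that `L` is the number
of the steps of the worst version from the worst vertex. Let `(A₀, b₀)` be of Frobenius norm at most one, and let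
`(G, g)` be a matrix and a vector of independent normal variables with mean zero and standard deviation `σ`.

(1) The expectation of `L(A₀ + G, b₀ + g, c)` is at most `B = (1 + 1 / σ) ^ 3 (M + 1) ^ (9 √N + 27)`, where
`M = min (m, 65536 (n + 1 + 1 / σ ^ 2))` and `N ≤ min (n, m - n)` is the least number with `(m choose n) ≤ (m + 1) ^ N`.
(2) Every measurable set of pairs `(G, g)` with `L(A₀ + G, b₀ + g, c) > K B` has probability at most `1 / K`.
(3) For every `ε > 0` there is a linear program `(A, b, c)`, all of whose coefficients differ from those of `(A₀, b₀)`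
by at most `ε`, with `L(A, b, c) ≤ 2 B`, `B` for `σ = ε / (4 + log (m (n + 1)))`.

So within `ε` of every linear program there is one on which every version of the simplex method, from every vertex,
needs at most `exp (O (√n log m + log (1 / ε)))` steps, and a version which needs more than that on a linear program
usually needs less if all the coefficients of this linear program are changed at random in the last
digits. For single rules with a shadow vertex much more is known (Spielman and Teng); for an arbitrary rule I know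
nothing better than the number of the vertices, whose exponent is `min (n, m - n)` in the place of `√n`.

The bound (1) is the theorem of helper302 (`Results/MP_ab1b6f_lc/SubexpPivots.lean`, on the smoothed complexity of three
rules, where the adversarial rule is used as a tool), for the start at all vertices; (2), (3) are added here.
-/

set_option autoImplicit false
set_option linter.all false

open MeasureTheory ProbabilityTheory Finset
open scoped ENNReal

namespace Pool.Agent.Results.MP_4d246d_lc.EveryVersionSubexponential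

/-- The feasible polyhedron `{x : A x ≤ b}`. -/
def feas {m n : ℕ} (A : Fin m → Fin n → ℝ) (b : Fin m → ℝ) : Set (Fin n → ℝ) :=
  {x | ∀ i, ∑ j, A i j * x j ≤ b i}

/-- `v` and `w` are different vertices of `P` joined by an edge: the segment between them is a one-dimensional face
(extreme subset) of `P`. -/
def Neighbour {n : ℕ} (P : Set (Fin n → ℝ)) (v w : Fin n → ℝ) : Prop :=
  v ≠ w ∧ v ∈ P.extremePoints ℝ ∧ w ∈ P.extremePoints ℝ ∧ IsExtreme ℝ P (segment ℝ v w)

/-- One step of a version of the simplex method: `w` is a neighbour of `v` and `cᵀw > cᵀv`. -/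
def Improving {n : ℕ} (P : Set (Fin n → ℝ)) (c v w : Fin n → ℝ) : Prop :=
  Neighbour P v w ∧ ∑ j, c j * v j < ∑ j, c j * w j

/-- `p 0, ..., p k` is a run with `k` steps. -/
def IsRun {n : ℕ} (P : Set (Fin n → ℝ)) (c : Fin n → ℝ) (k : ℕ) (p : ℕ → Fin n → ℝ) : Prop :=
  ∀ t < k, Improving P c (p t) (p (t + 1))

/-- The largest number of steps of a run, i.e. the number of steps of the worst version of the simplex method from
the worst vertex. -/
noncomputable def longest {n : ℕ} (P : Set (Fin n → ℝ)) (c : Fin n → ℝ) : ℝ≥0∞ :=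
  ⨆ (k : ℕ) (p : ℕ → Fin n → ℝ) (_ : IsRun P c k p), (k : ℝ≥0∞)

/-- The law of the perturbation `(G, g)`: all entries are independent `N(0, σ²)`. -/
noncomputable def noise (m n : ℕ) (σ : ℝ) : Measure ((Fin m → Fin n → ℝ) × (Fin m → ℝ)) :=
  (Measure.pi fun _ => Measure.pi fun _ => gaussianReal 0 (Real.toNNReal (σ ^ 2))).prod
    (Measure.pi fun _ => gaussianReal 0 (Real.toNNReal (σ ^ 2)))

/-- The bound `(1 + 1 / σ) ^ 3 (M + 1) ^ (9 √N + 27)`. -/
noncomputable def bound (m n : ℕ) (σ : ℝ) : ℝ :=
  (1 + 1 / σ) ^ 3 * (min (m : ℝ) (65536 * (n + 1 + 1 / σ ^ 2)) + 1) ^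
    (9 * Real.sqrt (Nat.clog (m + 1) (m.choose n) : ℝ) + 27)

theorem bound_pos (m n : ℕ) {σ : ℝ} (hσ : 0 < σ) : 0 < bound m n σ := by
  unfold bound
  have h1 : (0 : ℝ) ≤ min (m : ℝ) (65536 * (n + 1 + 1 / σ ^ 2)) := by
    apply le_min
    · positivity
    · positivity
  have h2 : (0 : ℝ) < min (m : ℝ) (65536 * (n + 1 + 1 / σ ^ 2)) + 1 := by linarith
  have h3 : (0 : ℝ) < (1 + 1 / σ) ^ 3 := by positivity
  exact mul_pos h3 (Real.rpow_pos_of_pos h2 _)

theorem longest_le_pivots {n : ℕ} (P : Set (Fin n → ℝ)) (c : Fin n → ℝ) :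
    longest P c ≤ Run7.h302.pivots Run7.h302.Rule.adversarial P c 0 := by
  unfold longest
  refine iSup_le fun k => iSup_le fun p => iSup_le fun hp => ?_
  rcases Nat.eq_zero_or_pos k with rfl | hk
  · simp
  have hv : p 0 ∈ P.extremePoints ℝ := (hp 0 hk).1.2.1
  unfold Run7.h302.pivots
  refine le_iSup_of_le (p 0) (le_iSup_of_le hv (le_iSup_of_le ?_ ?_))
  · intro x _
    simp
  · show (k : ℝ≥0∞) ≤ Run7.h302.longestRun (Run7.h302.Improving P c) (p 0)
    unfold Run7.h302.longestRun
    exact le_iSup_of_le k (le_iSup_of_le p (le_iSup_of_le rfl (le_iSup_of_le hp le_rfl)))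

theorem mean_le (m n : ℕ) {σ : ℝ} (hσ : 0 < σ) (A₀ : Fin m → Fin n → ℝ) (b₀ : Fin m → ℝ)
    (hF : (∑ i, ∑ j, A₀ i j ^ 2) + ∑ i, b₀ i ^ 2 ≤ 1) (c : Fin n → ℝ) :
    ∫⁻ ω, longest (feas (A₀ + ω.1) (b₀ + ω.2)) c ∂(noise m n σ) ≤ ENNReal.ofReal (bound m n σ) := by
  refine le_trans ?_ (Run7.h302.smoothedComplexity_le_uniform Run7.h302.Rule.adversarial m n hσ)
  refine le_trans (lintegral_mono fun ω => longest_le_pivots _ _) ?_
  unfold Run7.h302.smoothedComplexity
  exact le_iSup_of_le A₀ (le_iSup_of_le b₀ (le_iSup_of_le hF (le_iSup_of_le c (le_iSup_of_le 0 le_rfl))))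

theorem markov (m n : ℕ) {σ : ℝ} (hσ : 0 < σ) (A₀ : Fin m → Fin n → ℝ) (b₀ : Fin m → ℝ)
    (hF : (∑ i, ∑ j, A₀ i j ^ 2) + ∑ i, b₀ i ^ 2 ≤ 1) (c : Fin n → ℝ) {K : ℝ} (hK : 0 < K)
    {E : Set ((Fin m → Fin n → ℝ) × (Fin m → ℝ))} (hE : MeasurableSet E)
    (h : ∀ ω ∈ E, ENNReal.ofReal (K * bound m n σ) < longest (feas (A₀ + ω.1) (b₀ + ω.2)) c) :
    noise m n σ E ≤ ENNReal.ofReal (1 / K) := by
  have hB := bound_pos m n hσ
  have hKB : 0 < K * bound m n σ := mul_pos hK hB
  have h1 : ENNReal.ofReal (K * bound m n σ) * noise m n σ E ≤ ENNReal.ofReal (bound m n σ) := by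
    refine le_trans ?_ (mean_le m n hσ A₀ b₀ hF c)
    calc ENNReal.ofReal (K * bound m n σ) * noise m n σ E
        = ∫⁻ ω, E.indicator (fun _ => ENNReal.ofReal (K * bound m n σ)) ω ∂(noise m n σ) := by
          rw [lintegral_indicator hE]
          simp
      _ ≤ ∫⁻ ω, longest (feas (A₀ + ω.1) (b₀ + ω.2)) c ∂(noise m n σ) := by
          apply lintegral_mono
          intro ω
          by_cases hω : ω ∈ E
          · simp only [Set.indicator_of_mem hω]
            exact (h ω hω).le
          · simp only [Set.indicator_of_notMem hω]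
            exact zero_le
  have h2 : ENNReal.ofReal (bound m n σ) =
      ENNReal.ofReal (K * bound m n σ) * ENNReal.ofReal (1 / K) := by
    rw [← ENNReal.ofReal_mul hKB.le]
    congr 1
    field_simp
  rw [h2] at h1
  exact (ENNReal.mul_le_mul_iff_right (ENNReal.ofReal_pos.2 hKB).ne' ENNReal.ofReal_ne_top).1 h1

/-- The perturbations all of whose entries are at most `σ t`. -/
def box (m n : ℕ) (r : ℝ) : Set ((Fin m → Fin n → ℝ) × (Fin m → ℝ)) :=
  {ω | (∀ i j, |ω.1 i j| ≤ r) ∧ ∀ i, |ω.2 i| ≤ r}

theorem box_measurable (m n : ℕ) (r : ℝ) : MeasurableSet (box m n r) := by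
  have h1 : MeasurableSet {ω : (Fin m → Fin n → ℝ) × (Fin m → ℝ) | ∀ i j, |ω.1 i j| ≤ r} := by
    simp only [Set.setOf_forall]
    refine MeasurableSet.iInter fun i => MeasurableSet.iInter fun j => ?_
    exact measurableSet_le (by fun_prop) measurable_const
  have h2 : MeasurableSet {ω : (Fin m → Fin n → ℝ) × (Fin m → ℝ) | ∀ i, |ω.2 i| ≤ r} := by
    simp only [Set.setOf_forall]
    refine MeasurableSet.iInter fun i => ?_
    exact measurableSet_le (by fun_prop) measurable_const
  exact h1.inter h2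

instance (m n : ℕ) (σ : ℝ) : IsProbabilityMeasure (noise m n σ) := by
  unfold noise
  infer_instance

theorem box_large (m n : ℕ) {σ : ℝ} (hσ : 0 < σ) (t : ℝ) :
    noise m n σ (box m n (σ * t))ᶜ ≤
      ENNReal.ofReal ((m : ℝ) * (n + 1) * (2 * Real.exp (1 / 2 - t))) := by
  have hsub : (box m n (σ * t))ᶜ ⊆
      ({G : Fin m → Fin n → ℝ | ∃ i j, σ * t < |G i j|} ×ˢ (Set.univ : Set (Fin m → ℝ))) ∪
      ((Set.univ : Set (Fin m → Fin n → ℝ)) ×ˢ {g : Fin m → ℝ | ∃ i, σ * t < |g i|}) := by
    intro ω hω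
    by_contra hc
    apply hω
    simp only [Set.mem_union, Set.mem_prod, Set.mem_setOf_eq, Set.mem_univ, and_true, true_and,
      not_or, not_exists, not_lt] at hc
    exact hc
  refine (measure_mono hsub).trans ((measure_union_le _ _).trans ?_)
  have e1 : noise m n σ ({G : Fin m → Fin n → ℝ | ∃ i j, σ * t < |G i j|} ×ˢ
      (Set.univ : Set (Fin m → ℝ))) ≤ m * (n * ENNReal.ofReal (2 * Real.exp (1 / 2 - t))) := by
    unfold noise
    rw [Measure.prod_prod, measure_univ, mul_one]
    exact Run7.h302.noiseA_tail hσ t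
  have e2 : noise m n σ ((Set.univ : Set (Fin m → Fin n → ℝ)) ×ˢ
      {g : Fin m → ℝ | ∃ i, σ * t < |g i|}) ≤ m * ENNReal.ofReal (2 * Real.exp (1 / 2 - t)) := by
    unfold noise
    rw [Measure.prod_prod, measure_univ, one_mul]
    exact Run7.h302.noiseB_tail hσ t
  refine (add_le_add e1 e2).trans (le_of_eq ?_)
  have hp : 0 ≤ 2 * Real.exp (1 / 2 - t) := by positivity
  generalize 2 * Real.exp (1 / 2 - t) = q at hp
  have e3 : (m : ℝ) * (n + 1) * q = ((m * (n + 1) : ℕ) : ℝ) * q := by push_cast; ring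
  rw [e3, ENNReal.ofReal_mul (by positivity), ENNReal.ofReal_natCast]
  push_cast
  ring

theorem nearby (m n : ℕ) (hm : 1 ≤ m) (A₀ : Fin m → Fin n → ℝ) (b₀ : Fin m → ℝ)
    (hF : (∑ i, ∑ j, A₀ i j ^ 2) + ∑ i, b₀ i ^ 2 ≤ 1) (c : Fin n → ℝ) {ε : ℝ} (hε : 0 < ε) :
    ∃ (A : Fin m → Fin n → ℝ) (b : Fin m → ℝ), (∀ i j, |A i j - A₀ i j| ≤ ε) ∧
      (∀ i, |b i - b₀ i| ≤ ε) ∧
      longest (feas A b) c ≤
        ENNReal.ofReal (2 * bound m n (ε / (4 + Real.log ((m : ℝ) * (n + 1))))) := by
  have hm0 : (1 : ℝ) ≤ m := by exact_mod_cast hm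
  have hmn : (1 : ℝ) ≤ (m : ℝ) * (n + 1) := by
    have : (0 : ℝ) ≤ n := by positivity
    nlinarith
  set t : ℝ := 4 + Real.log ((m : ℝ) * (n + 1)) with ht
  have ht0 : 0 < t := by
    have := Real.log_nonneg hmn
    linarith
  set σ : ℝ := ε / t with hσ'
  have hσ : 0 < σ := by positivity
  have hst : σ * t = ε := by
    rw [hσ']
    field_simp
  -- the box has probability larger than one half
  have h1 : noise m n σ (box m n ε)ᶜ ≤ ENNReal.ofReal (1 / 4) := by
    rw [← hst]
    refine (box_large m n hσ t).trans (ENNReal.ofReal_le_ofReal ?_)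
    have e : Real.exp (1 / 2 - t) = Real.exp (-(7 / 2)) / ((m : ℝ) * (n + 1)) := by
      rw [ht, show (1 / 2 : ℝ) - (4 + Real.log ((m : ℝ) * (n + 1))) =
        -(7 / 2) - Real.log ((m : ℝ) * (n + 1)) by ring, Real.exp_sub,
        Real.exp_log (by linarith)]
    have h3 : Real.exp (-(7 / 2)) ≤ 1 / 8 := by
      have h4 : (8 : ℝ) ≤ Real.exp (7 / 2) := by
        have h5 := Real.add_one_le_exp (7 / 8 : ℝ)
        have h6 : Real.exp (7 / 2) = Real.exp (7 / 8) ^ 4 := by
          rw [← Real.exp_nat_mul]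
          norm_num
        have h7 : (15 / 8 : ℝ) ≤ Real.exp (7 / 8) := by linarith
        rw [h6]
        calc (8 : ℝ) ≤ (15 / 8) ^ 4 := by norm_num
          _ ≤ Real.exp (7 / 8) ^ 4 := pow_le_pow_left₀ (by norm_num) h7 4
      rw [Real.exp_neg, inv_eq_one_div]
      exact one_div_le_one_div_of_le (by norm_num) h4
    rw [e]
    have h8 : (m : ℝ) * (n + 1) * (2 * (Real.exp (-(7 / 2)) / ((m : ℝ) * (n + 1)))) =
        2 * Real.exp (-(7 / 2)) := by
      field_simp
    rw [h8]
    linarith
  by_contra hcon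
  push Not at hcon
  have h2 := markov m n hσ A₀ b₀ hF c (K := 2) (by norm_num) (box_measurable m n ε)
    (fun ω hω => hcon (A₀ + ω.1) (b₀ + ω.2) (fun i j => by simpa using hω.1 i j)
      (fun i => by simpa using hω.2 i))
  have h3 : (1 : ℝ≥0∞) ≤ ENNReal.ofReal (1 / 2) + ENNReal.ofReal (1 / 4) := by
    calc (1 : ℝ≥0∞) = noise m n σ Set.univ := measure_univ.symm
      _ ≤ noise m n σ (box m n ε) + noise m n σ (box m n ε)ᶜ := by
          rw [← Set.union_compl_self (box m n ε)]
          exact measure_union_le _ _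
      _ ≤ ENNReal.ofReal (1 / 2) + ENNReal.ofReal (1 / 4) := add_le_add h2 h1
  rw [← ENNReal.ofReal_add (by norm_num) (by norm_num), ← ENNReal.ofReal_one] at h3
  have h4 := (ENNReal.ofReal_le_ofReal_iff (by norm_num)).1 h3
  norm_num at h4

/-- **Theorem.** Let `m ≥ 1` and `n` be natural numbers, `(A₀, b₀)` of Frobenius norm at most one and `c` in `ℝ ^ n`.
(1) For every `σ > 0` the expectation of the largest number of steps of a run on `{x : (A₀ + G) x ≤ b₀ + g}` for the
objective `c`, i.e. of the number of steps of the worst version of the simplex method from the worst vertex, is at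
most `bound m n σ`, where `(G, g)` are independent normal variables with standard deviation `σ`.
(2) Every measurable set of pairs `(G, g)` for which this number is larger than `K` times the bound has probability at
most `1 / K`.
(3) For every `ε > 0` there are `(A, b)`, all entries of which differ from those of `(A₀, b₀)` by at most `ε`, such that
every run on `{x : A x ≤ b}` for the objective `c` has at most `2 * bound m n (ε / (4 + log (m (n + 1))))` steps. -/
theorem result (m n : ℕ) (hm : 1 ≤ m) (A₀ : Fin m → Fin n → ℝ) (b₀ : Fin m → ℝ)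
    (hF : (∑ i, ∑ j, A₀ i j ^ 2) + ∑ i, b₀ i ^ 2 ≤ 1) (c : Fin n → ℝ) :
    (∀ σ : ℝ, 0 < σ →
      ∫⁻ ω, longest (feas (A₀ + ω.1) (b₀ + ω.2)) c ∂(noise m n σ) ≤ ENNReal.ofReal (bound m n σ) ∧
      ∀ K : ℝ, 0 < K → ∀ E : Set ((Fin m → Fin n → ℝ) × (Fin m → ℝ)), MeasurableSet E →
        (∀ ω ∈ E, ENNReal.ofReal (K * bound m n σ) < longest (feas (A₀ + ω.1) (b₀ + ω.2)) c) →
        noise m n σ E ≤ ENNReal.ofReal (1 / K)) ∧
    (∀ ε : ℝ, 0 < ε → ∃ (A : Fin m → Fin n → ℝ) (b : Fin m → ℝ),
      (∀ i j, |A i j - A₀ i j| ≤ ε) ∧ (∀ i, |b i - b₀ i| ≤ ε) ∧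
      ∀ (k : ℕ) (p : ℕ → Fin n → ℝ), IsRun (feas A b) c k p →
        (k : ℝ) ≤ 2 * bound m n (ε / (4 + Real.log ((m : ℝ) * (n + 1))))) := by
  refine ⟨fun σ hσ => ⟨mean_le m n hσ A₀ b₀ hF c, fun K hK E hE h => markov m n hσ A₀ b₀ hF c hK hE h⟩,
    fun ε hε => ?_⟩
  obtain ⟨A, b, hA, hb, h⟩ := nearby m n hm A₀ b₀ hF c hε
  refine ⟨A, b, hA, hb, fun k p hp => ?_⟩
  have h1 : (k : ℝ≥0∞) ≤ longest (feas A b) c := by
    unfold longest
    exact le_iSup_of_le k (le_iSup_of_le p (le_iSup_of_le hp le_rfl))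
  have h2 := h1.trans h
  have hmn : (1 : ℝ) ≤ (m : ℝ) * (n + 1) := by
    have hm0 : (1 : ℝ) ≤ m := by exact_mod_cast hm
    have : (0 : ℝ) ≤ n := by positivity
    nlinarith
  have ht0 : 0 < 4 + Real.log ((m : ℝ) * (n + 1)) := by
    have := Real.log_nonneg hmn
    linarith
  have h3 : 0 < 2 * bound m n (ε / (4 + Real.log ((m : ℝ) * (n + 1)))) :=
    mul_pos two_pos (bound_pos m n (by positivity))
  rw [← ENNReal.ofReal_natCast] at h2
  exact (ENNReal.ofReal_le_ofReal_iff h3.le).1 h2

end Pool.Agent.Results.MP_4d246d_lc.EveryVersionSubexponential
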