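import Pool.Agent.Run7.h689.HP7
set_option autoImplicit false

/-!
# Simplex paths whose length is within a factor `N ^ (1 - ε)` of the shortest one are hard to find

The linear program of `n` elements, `m` sets `C j`, a number `k < n` and a number `L`: a short simplex
path from the vertex `0` to the optimum exists if there is a set of at most `k` elements which meets
all the sets `C j`, and otherwise all simplex paths have at least `L` pivots.
-/

namespace Pool.Agent.Results.MP_4d246d_lc.NearShortestPaths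

open Pool.Agent.Run7.h689.HP

/-- The linear program. Its variables are
`x v = .inl (.inl v)` for the elements `v`, `t j = .inl (.inr j)` for the sets `j`, and
`a j = .inr (.inl j)`, `b j = .inr (.inr j)` for the sets `j` and for `j = none`. Its rows are
`x v - ∑ (a j, v ∈ C j) + a none ≤ L + 1` and `t j + (n + 1) a j - (n + 1) a none ≤ (n + 1) L + 1`,
`a j ≤ L` and `b j - (L - i) a j ≤ i (i + 1) / 2 + 1` for `0 ≤ i < L`, and the function
`∑ 2 x v + ∑ 2 t j - ∑ a j + (2 k + 1 - 2 (n + 1) m) a none + (2 n + 4) (∑ b j + b none)`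
is maximised. -/
def hittingLP (n m k L : ℕ) (C : Fin m → Finset (Fin n)) :
    LP ((Fin n ⊕ Fin m) ⊕ (Option (Fin m) ⊕ (Option (Fin m) × Fin L)))
      ((Fin n ⊕ Fin m) ⊕ (Option (Fin m) ⊕ Option (Fin m))) where
  A
  | .inl (.inl v), .inl (.inl v') => if v' = v then 1 else 0
  | .inl (.inl v), .inr (.inl (some j)) => if v ∈ C j then -1 else 0
  | .inl (.inl _), .inr (.inl none) => 1
  | .inl (.inr j), .inl (.inr j') => if j' = j then 1 else 0
  | .inl (.inr j), .inr (.inl (some j')) => if j' = j then (n : ℤ) + 1 else 0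
  | .inl (.inr _), .inr (.inl none) => -((n : ℤ) + 1)
  | .inr (.inl j), .inr (.inl j') => if j' = j then 1 else 0
  | .inr (.inr (j, i)), .inr (.inl j') => if j' = j then -((L : ℤ) - (i.1 : ℤ)) else 0
  | .inr (.inr (j, _)), .inr (.inr j') => if j' = j then 1 else 0
  | _, _ => 0
  b
  | .inl (.inl _) => L + 1
  | .inl (.inr _) => ((n : ℤ) + 1) * L + 1
  | .inr (.inl _) => L
  | .inr (.inr (_, i)) => (i.1 : ℤ) * (i.1 + 1) / 2 + 1
  c
  | .inl _ => 2
  | .inr (.inl (some _)) => -1
  | .inr (.inl none) => 2 * k + 1 - 2 * (n + 1) * m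
  | .inr (.inr _) => 2 * n + 4

theorem lp_eq (n m k L : ℕ) (C : Fin m → Finset (Fin n)) : hittingLP n m k L C = (hs n m k L C).lp := by
  have hA : (hittingLP n m k L C).A = (hs n m k L C).lp.A := by
    funext i j
    rcases i with (v | j') | j' | ⟨j', i⟩ <;> rcases j with (v₂ | j₂) | (_ | j₂) | j₂ <;>
      simp only [hittingLP, Data.lp, hs, neg_neg, Sum.inl.injEq, Sum.inr.injEq,
        reduceCtorEq, if_false]
    · split_ifs <;> simp
    · split_ifs <;> simp
  have hb : (hittingLP n m k L C).b = (hs n m k L C).lp.b := by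
    funext i
    rcases i with (v | j') | j' | ⟨j', i⟩ <;> rfl
  have hc : (hittingLP n m k L C).c = (hs n m k L C).lp.c := by
    funext j
    rcases j with (v₂ | j₂) | (_ | j₂) | j₂ <;> rfl
  have key : ∀ (P Q : LP ((Fin n ⊕ Fin m) ⊕ (Option (Fin m) ⊕ (Option (Fin m) × Fin L)))
      ((Fin n ⊕ Fin m) ⊕ (Option (Fin m) ⊕ Option (Fin m)))), P.A = Q.A → P.b = Q.b → P.c = Q.c → P = Q := by
    rintro ⟨A, b, c⟩ ⟨A', b', c'⟩ rfl rfl rfl
    rfl
  exact key _ _ hA hb hc

/-- **Hardness of finding simplex paths which are not much longer than the shortest one.**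

Let `k < n`, `L ≥ 1` and let `C j`, `j < m`, be subsets of a set with `n` elements. The linear program
`hittingLP n m k L C` has `n + 3 m + 2` variables and `n + m + (m + 1) (L + 1)` rows, and integer entries
of size at most `(n + L + 1) ^ 2` and `4 (n + 1) (m + 1)`; its feasible region is bounded, it is
nondegenerate, `0` is a vertex, and the optimal point is unique. If some set of at most `k` elements
meets all the sets `C j`, then there is a simplex path from `0` to the optimal point with
`n + 3 m + 2` pivots. Conversely, if there is any simplex path from `0` to the optimal point with fewer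
than `L` pivots, then some set of at most `k` elements meets all the sets `C j`. -/
theorem result (n m k L : ℕ) (hk : k < n) (hL : 1 ≤ L) (C : Fin m → Finset (Fin n)) :
    (∀ i j, |(hittingLP n m k L C).A i j| ≤ n + L + 1) ∧
    (∀ i, |(hittingLP n m k L C).b i| ≤ (n + L + 1) ^ 2) ∧
    (∀ j, |(hittingLP n m k L C).c j| ≤ 4 * (n + 1) * (m + 1)) ∧
    (hittingLP n m k L C).Nondegenerate ∧
    (∃ R : ℝ, ∀ w ∈ (hittingLP n m k L C).feasible, ∀ j, w j ≤ R) ∧
    0 ∈ (hittingLP n m k L C).feasible.extremePoints ℝ ∧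
    (∃ t ∈ (hittingLP n m k L C).feasible, ∀ w ∈ (hittingLP n m k L C).feasible, w ≠ t →
      (hittingLP n m k L C).value w < (hittingLP n m k L C).value t) ∧
    ((∃ S : Finset (Fin n), S.card ≤ k ∧ ∀ j, ∃ v ∈ S, v ∈ C j) →
      ∃ x, (hittingLP n m k L C).Path 0 (n + 3 * m + 2) x) ∧
    ((∃ T < L, ∃ x, (hittingLP n m k L C).Path 0 T x) →
      ∃ S : Finset (Fin n), S.card ≤ k ∧ ∀ j, ∃ v ∈ S, v ∈ C j) := by
  have hM0 : 0 < (hs n m k L C).M := by
    have : (hs n m k L C).M = 2 * n + 4 := rfl
    rw [this]; positivity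
  have h0 : (0 : (Fin n ⊕ Fin m) ⊕ (Option (Fin m) ⊕ Option (Fin m)) → ℝ) ∈ (hs n m k L C).lp.feasible := by
    rw [← zero_eq (hs n m k L C)]
    exact vx_mem hs_pos _ (Finset.empty_subset _)
  have hn : (0 : ℤ) ≤ n := by positivity
  have hm : (0 : ℤ) ≤ m := by positivity
  have hl : (1 : ℤ) ≤ L := by exact_mod_cast hL
  refine ⟨?_, ?_, ?_, ?_⟩
  · intro i j
    rcases i with (v | j') | j' | ⟨j', i⟩ <;> rcases j with (v₂ | j₂) | (_ | j₂) | j₂ <;>
      simp only [hittingLP] <;> try (split_ifs <;> (rw [abs_le]; constructor <;> linarith))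
    all_goals first
      | (rw [abs_le]; constructor <;> linarith)
      | (have hi : (i.1 : ℤ) < L := by exact_mod_cast i.2
         have hi0 : (0 : ℤ) ≤ i.1 := by positivity
         split_ifs <;> (rw [abs_le]; constructor <;> linarith))
  · intro i
    rcases i with (v | j') | j' | ⟨j', i⟩ <;> simp only [hittingLP]
    · rw [abs_le]; constructor <;> nlinarith
    · rw [abs_le]; constructor <;> nlinarith
    · rw [abs_le]; constructor <;> nlinarith
    · have hi : (i.1 : ℤ) + 1 ≤ L := by exact_mod_cast i.2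
      have hi0 : (0 : ℤ) ≤ i.1 := by positivity
      have h1 : (0 : ℤ) ≤ (i.1 : ℤ) * (i.1 + 1) / 2 := by positivity
      have h2 : (i.1 : ℤ) * (i.1 + 1) / 2 ≤ (i.1 : ℤ) * (i.1 + 1) := Int.ediv_le_self _ (by positivity)
      have h3 : (i.1 : ℤ) * (i.1 + 1) ≤ L * L := mul_le_mul (by linarith) hi (by linarith) (by linarith)
      rw [abs_le]; constructor <;> nlinarith
  · intro j
    have hk' : (k : ℤ) + 1 ≤ n := by exact_mod_cast hk
    have hk0 : (0 : ℤ) ≤ k := by positivity
    rcases j with (v₂ | j₂) | (_ | j₂) | j₂ <;> simp only [hittingLP] <;> rw [abs_le] <;>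
      constructor <;> nlinarith [mul_nonneg hn hm]
  rw [lp_eq]
  refine ⟨nondeg hs_pos hL, bounded hL, zero_ext h0, ?_, ?_, ?_⟩
  · refine ⟨opt (hs n m k L C), opt_mem hs_pos, fun w hw hne => ?_⟩
    have h1 := opt_top hL coef_univ_lt hM0 hw
    exact lt_of_le_of_ne h1.1 fun h => hne (h1.2 h)
  · rintro ⟨S, hS, hC⟩
    exact upper hL hS hC
  · rintro ⟨T, hT, x, hx⟩
    exact lower hk hL hT hx

end Pool.Agent.Results.MP_4d246d_lc.NearShortestPaths
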