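import Pool.Agent.Run7.h515.PW.Rule
set_option autoImplicit false

/-!
# A deterministic pivot rule with at most `(11 / 6) 7 ^ ⌈n / 4⌉` pivots on all abstract cubes

`flip x i` is the neighbour of the vertex `x` of the `n`-cube in direction `i`, `improving f x` the set of
directions `i` with `f x < f (flip x i)`, and `seen f w t` the list of pairs (visited vertex, its improving
directions) for `w t, …, w 0`. A rule sees this list and chooses an improving direction. We consider
injective objective functions with exactly one local maximum on every face of the cube; for instance the
linear programs whose feasible region is combinatorially a cube, and Markov decision processes with two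
actions, have this structure.

The starting results `AllDeterministicRules` and `SquareRootExponent` show that in this model every
rule needs `2 ^ (n ^ (1/2 - o(1)))` pivots. In the other direction nothing better than the trivial bound
`2 ^ n - 1` seems to be known for single pivots. For rules which may switch several improving directions at
once the best known bound is `1.6479 ^ n` (batch-switching policy iteration of Kalyanakrishnan, Mall and
Goyal). Here there is a rule with single pivots and less than `1.84 * 7 ^ ⌈n / 4⌉` of them, that is
`O(1.6266 ^ n)`, from all start vertices.

Proof. Suppose that `T` moves suffice for a set `R` of directions, and let there be four further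
directions. The cells are the 16 faces in the directions of `R`. The strategy for `R` is played in a cell
as long as the rule wants. If it leaves the cell in one of the four further directions, which has not
been improving at any vertex of this play before, the play is continued in the next cell: all the vertices
which have been excluded in the old cell are also excluded in the new one. A play which comes to its
end shows which of the four directions are improving at the best vertex of its cell, and by the theorem
of Szabó and Welzl this excludes certain sets of improving directions for all the vertices of all cells
(a better vertex differs from it in a direction which is improving only at the latter). So there remains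
a finite game on the sets of pairs (cell, set of directions) which are not yet excluded. It was solved by
computer: seven plays and eleven moves in the further directions suffice. The strategy is a table
of 106 states (up to permutations of the four directions, and up to inclusion), which is checked by the
kernel of Lean. This gives the recursion `T ↦ 7 T + 11`.
-/

namespace Pool.Agent.Results.MP_4d246d_lc.SinglePivotsUpperBound

open Finset Pool.Agent.Run7.h515.PV Pool.Agent.Run7.h515.PW

/-- **There is a deterministic pivot rule with at most `(11 / 6) (7 ^ ⌈n / 4⌉ - 1)` pivots on all abstract
objective functions on the `n`-cube.** For `n ≥ 1` there is a rule, which sees the visited vertices and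
their sets of improving directions (the present vertex first) and chooses an improving direction, such
that for every injective `f` with exactly one local maximum on every face and every start vertex `x₀` the
path `w 0 = x₀, w 1, …, w L` of the rule ends in the maximum with `L ≤ (11 / 6) (7 ^ ⌈n / 4⌉ - 1)`. -/
theorem result (n : ℕ) (hn : 1 ≤ n) :
    ∃ rule : List ((Fin n → Bool) × Finset (Fin n)) → Fin n,
      (∀ (x : Fin n → Bool) (S : Finset (Fin n)) (l : List ((Fin n → Bool) × Finset (Fin n))),
        S.Nonempty → rule ((x, S) :: l) ∈ S) ∧
      ∀ {α : Type} [LinearOrder α] (f : (Fin n → Bool) → α), Function.Injective f →
        (∀ (U : Finset (Fin n)) (x : Fin n → Bool), ∃! y : Fin n → Bool,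
          (∀ i, i ∉ U → y i = x i) ∧ ∀ i ∈ U, f (Run7.h515.PV.flip y i) < f y) →
        ∀ x₀ : Fin n → Bool, ∃ (L : ℕ) (w : ℕ → (Fin n → Bool)), w 0 = x₀ ∧
          (∀ t < L, (improving f (w t)).Nonempty ∧
            w (t + 1) = Run7.h515.PV.flip (w t) (rule (seen f w t))) ∧
          improving f (w L) = ∅ ∧ (∀ y, f y ≤ f (w L)) ∧
          6 * L + 11 ≤ 11 * 7 ^ ((n + 3) / 4) := by
  have hsub : range n ⊆ range (4 * ((n + 3) / 4)) := by
    intro i hi
    rw [mem_range] at hi ⊢
    omega
  refine ⟨ruleOf hn (tt ((n + 3) / 4)), fun x S l hS => ruleOf_mem hn _ x S l hS, ?_⟩
  intro α _ f hinj hf x₀
  obtain ⟨L, w, h1, h2, h3, h4⟩ := main hn (tt ((n + 3) / 4))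
    (fun v => (win_blocks _ v).mono_set hsub) f hinj hf x₀
  refine ⟨L, w, h1, h2, h3, fun y => ?_, ?_⟩
  · refine le_of_kill hinj hf (w L) y fun i hi => ?_
    rw [h3] at hi
    exact absurd hi (by simp)
  · have := tt_eq ((n + 3) / 4)
    omega

end Pool.Agent.Results.MP_4d246d_lc.SinglePivotsUpperBound
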